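import Pool.Agent.Helper98K9.CP.All

set_option autoImplicit false

/-!
# Percolation on the canopy tree times `ℤ` and times `ℕ`

If the canopy tree times `ℤ` percolates at `p` then the canopy tree times `ℕ` percolates at some `p' < p`.
The argument of `Helper36K9.CP.Tau` works with the full line in place of the half-line.
-/

namespace Pool.Agent.U621.CZ

open Pool.Agent.Helper98K9.CP Pool.Agent.Helper98K9.CP.AllL
open MeasureTheory ProbabilityTheory Filter Topology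
open scoped ENNReal NNReal

/-- the percolation probability in the canopy tree times `ℤ` increases with the level -/
theorem theta_mono (hR : S_REIDX) {b : ℕ} (hb : 2 ≤ b) (p : ℝ≥0) (hp : p ≤ 1) (x : Vx) (a j : ℕ)
    (ha : x.1.1 = a) :
    (PP Ed p hp).real {ω | (cl b ω WC x).Infinite}
      ≤ (PP Ed p hp).real {ω | (cl b ω WC ((((a + j : ℕ) : ℤ), 0), 0)).Infinite} := by
  obtain ⟨σ, hσ, h1, h2⟩ := aut b hb x.1 (((a + j : ℕ) : ℤ), 0)
  rw [← Bk2L.real_te hR p hp σ (-x.2) {ω | (cl b ω WC x).Infinite}]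
  refine measureReal_mono ?_ (by finiteness)
  intro ω hω
  simp only [Set.mem_ofPred_eq] at hω ⊢
  rw [clInf_tr hσ] at hω
  have h3 : tr σ (-x.2) x = ((((a + j : ℕ) : ℤ), 0), 0) := by
    change (σ x.1, x.2 + -x.2) = _
    rw [h1]; simp
  rw [h3] at hω
  refine hω.mono (cl_mono ?_ fun e _ h => h)
  rintro _ ⟨y, hy, rfl⟩
  change 0 ≤ (σ y.1).1
  rw [h2, ha]
  have : 0 ≤ y.1.1 := hy
  push_cast
  linarith

/-- percolation on canopy × ℤ gives a long connection with probability bounded below -/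
theorem tauZ (hR : S_REIDX) (hH : S_HAR) (hM : S_MEAS) (hBK : S_BK) :
    ∀ b : ℕ, 2 ≤ b → ∀ (p : ℝ≥0) (hp : p ≤ 1), 0 < p → ∀ x : Vx,
    0 < (PP Ed p hp).real {ω | (cl b ω WC x).Infinite} →
    ∃ a n : ℕ, 1 ≤ n ∧ 1 < (b : ℝ) ^ n * ((PP Ed p hp).real {ω | Cn b ω WC
      (((a : ℤ), 0), 0) ((((a + n : ℕ) : ℤ), 0), 0)}) ^ 2 := by
  intro b hb p hp hp0 x hx
  have hxW : x ∈ WC := by
    by_contra hxW
    have : {ω : Cf | (cl b ω WC x).Infinite} = ∅ := by
      ext ω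
      simp only [Set.mem_ofPred_eq, Set.mem_empty_iff_false, iff_false]
      exact fun h => hxW (mem_of_infinite h)
    rw [this] at hx
    simp at hx
  obtain ⟨a, ha⟩ : ∃ a : ℕ, x.1.1 = a := ⟨x.1.1.toNat, (Int.toNat_of_nonneg hxW).symm⟩
  set θ := (PP Ed p hp).real {ω | (cl b ω WC x).Infinite} with hθ
  have hθ3 : 0 < θ ^ 3 / 3 := by positivity
  obtain ⟨n, hn⟩ : ∃ n : ℕ, 1 / (θ ^ 3 / 3) ^ 2 < (2 : ℝ) ^ n :=
    pow_unbounded_of_one_lt _ (by norm_num)
  have hn' : ∀ m : ℕ, n ≤ m → ∀ r : ℝ, θ ^ 3 / 3 ≤ r → 1 < (b : ℝ) ^ m * r ^ 2 := by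
    intro m hm r hr
    have h1 : (2 : ℝ) ^ n ≤ (b : ℝ) ^ m :=
      le_trans (pow_le_pow_right₀ (by norm_num) hm)
        (pow_le_pow_left₀ (by norm_num) (by exact_mod_cast hb) m)
    have h2 : (θ ^ 3 / 3) ^ 2 ≤ r ^ 2 := pow_le_pow_left₀ hθ3.le hr 2
    have h3 : 1 < (2 : ℝ) ^ n * (θ ^ 3 / 3) ^ 2 := by
      rwa [div_lt_iff₀ (by positivity)] at hn
    calc (1 : ℝ) < (2 : ℝ) ^ n * (θ ^ 3 / 3) ^ 2 := h3
      _ ≤ (b : ℝ) ^ m * r ^ 2 := mul_le_mul h1 h2 (by positivity) (by positivity)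
  set N := n + 1 with hN
  let y : ℕ → Vx := fun j => ((((a + j : ℕ) : ℤ), 0), 0)
  let E : ℕ → Set Cf := fun j => {ω | (cl b ω WC (y j)).Infinite}
  have hE : ∀ j, θ ≤ (PP Ed p hp).real (E j) := fun j => theta_mono hR hb p hp x a j ha
  have hEm : ∀ j, MeasurableSet (E j) := fun j => (hM b WC (y j) (y j)).2
  have hEi : ∀ j, Inc (E j) := fun j => inc_clInf WC (y j)
  have hIn : ∀ A B : Set Cf, Inc A → Inc B → Inc (A ∩ B) :=
    fun A B hA hB ω ω' h h' => ⟨hA ω ω' h h'.1, hB ω ω' h h'.2⟩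
  have h1 : θ ^ 2 ≤ (PP Ed p hp).real (E 0 ∩ E N) := by
    refine le_trans ?_ (hH Ed p hp (E 0) (E N) (hEm _) (hEm _) (hEi _) (hEi _))
    rw [sq]
    exact mul_le_mul (hE _) (hE _) hx.le measureReal_nonneg
  have h2 : θ ^ 3 ≤ (PP Ed p hp).real ((E 0 ∩ E N) ∩ E (2 * N)) := by
    refine le_trans ?_ (hH Ed p hp (E 0 ∩ E N) (E (2 * N)) ((hEm _).inter (hEm _)) (hEm _)
      (hIn _ _ (hEi _) (hEi _)) (hEi _))
    rw [pow_succ]
    exact mul_le_mul h1 (hE _) hx.le measureReal_nonneg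
  let C : ℕ → ℕ → Set Cf := fun i j => {ω | Cn b ω WC (y i) (y j)}
  have h3 : (E 0 ∩ E N) ∩ E (2 * N) ⊆ {ω | Three b WC ω} ∪ (C 0 N ∪ (C 0 (2 * N) ∪ C N (2 * N))) := by
    rintro ω ⟨⟨e0, e1⟩, e2⟩
    by_contra hcon
    simp only [Set.mem_union, not_or] at hcon
    obtain ⟨c0, c1, c2, c3⟩ := hcon
    apply c0
    refine ⟨![y 0, y N, y (2 * N)], ?_, ?_⟩
    · intro k
      fin_cases k
      · exact e0
      · exact e1
      · exact e2
    · intro k l hkl hc
      fin_cases k <;> fin_cases l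
      · exact hkl rfl
      · exact c1 hc
      · exact c2 hc
      · exact c1 hc.symm
      · exact hkl rfl
      · exact c3 hc
      · exact c2 hc.symm
      · exact c3 hc.symm
      · exact hkl rfl
  have h4 : θ ^ 3 ≤ (PP Ed p hp).real (C 0 N) + ((PP Ed p hp).real (C 0 (2 * N))
      + (PP Ed p hp).real (C N (2 * N))) := by
    calc θ ^ 3 ≤ _ := h2
      _ ≤ (PP Ed p hp).real ({ω | Three b WC ω} ∪ (C 0 N ∪ (C 0 (2 * N) ∪ C N (2 * N)))) :=
          measureReal_mono h3 (by finiteness)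
      _ ≤ (PP Ed p hp).real {ω | Three b WC ω} + ((PP Ed p hp).real (C 0 N)
            + ((PP Ed p hp).real (C 0 (2 * N)) + (PP Ed p hp).real (C N (2 * N)))) := by
          refine (measureReal_union_le _ _).trans ?_
          gcongr
          refine (measureReal_union_le _ _).trans ?_
          gcongr
          exact measureReal_union_le _ _
      _ = _ := by rw [hBK b hb p hp hp0, zero_add]
  rcases le_or_gt (θ ^ 3 / 3) ((PP Ed p hp).real (C 0 N)) with h5 | h5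
  · refine ⟨a, N, by omega, ?_⟩
    have := hn' N (by omega) _ h5
    simpa only [C, y, Set.mem_ofPred_eq, add_zero] using this
  · rcases le_or_gt (θ ^ 3 / 3) ((PP Ed p hp).real (C 0 (2 * N))) with h6 | h6
    · refine ⟨a, 2 * N, by omega, ?_⟩
      have := hn' (2 * N) (by omega) _ h6
      simpa only [C, y, Set.mem_ofPred_eq, add_zero] using this
    · refine ⟨a + N, N, by omega, ?_⟩
      have h7 : θ ^ 3 / 3 ≤ (PP Ed p hp).real (C N (2 * N)) := by linarith
      have := hn' N (by omega) _ h7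
      have e : a + N + N = a + 2 * N := by ring
      rw [e]
      exact this

/-- if canopy × ℤ percolates at `p` then canopy × ℕ percolates at `p` and at a smaller parameter -/
theorem mainZ (b : ℕ) (hb : 2 ≤ b) (p : ℝ≥0) (hp : p ≤ 1)
    (x : Vx) (hx : 0 < (PP Ed p hp).real {ω | (cl b ω WC x).Infinite}) :
    (∀ y ∈ WN, 0 < (PP Ed p hp).real {ω | (cl b ω WN y).Infinite}) ∧
    ∃ (p' : ℝ≥0) (hp' : p' ≤ 1), p' < p ∧
      ∀ y ∈ WN, 0 < (PP Ed p' hp').real {ω | (cl b ω WN y).Infinite} := by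
  have hp0 : 0 < p := by
    rcases eq_or_lt_of_le (zero_le : (0 : ℝ≥0) ≤ p) with h | h
    · exfalso
      subst h
      rw [FinL.zero x hp] at hx
      exact lt_irrefl _ hx
    · exact h
  obtain ⟨a, n, hn, h1⟩ := tauZ reidx har meas bk' b hb p hp hp0 x hx
  obtain ⟨M, R, hM, h2⟩ := fina b hb p hp a n h1
  obtain ⟨K, hK⟩ := chain' b hb p hp hp0 M R a n hn hM h2
  -- percolation of canopy × ℕ at `p`
  have h3 := can' b hb K R p hp hK
  obtain ⟨y0, hy0⟩ := FinL.exists_pos h3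
  have hy0W : y0 ∈ WN := by
    by_contra hcon
    have : {ω : Cf | (cl b ω WN y0).Infinite} = ∅ := by
      ext ω
      simp only [Set.mem_ofPred_eq, Set.mem_empty_iff_false, iff_false]
      exact fun h => hcon (mem_of_infinite h)
    rw [this] at hy0
    simp at hy0
  exact ⟨fun y hy => FinL.pos_all har meas hp0 (FinL.conn_WN hb hy hy0W) hy0,
    main_canopy har meas tau' fina chain' muc' can' b hb p hp y0 hy0⟩

/-- the product of the model of the canopy tree with the line -/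
theorem emb_canopyZ (d : ℕ) :
    Emb (d - 1) ((canopy d).boxProd line) (fun x : (ℕ × ℕ) × ℤ => (((x.1.1 : ℤ), x.1.2), x.2))
      WC where
  inj := by
    rintro ⟨⟨k, m⟩, h⟩ ⟨⟨k', m'⟩, h'⟩ hh
    simp only [Prod.mk.injEq, Nat.cast_inj] at hh ⊢
    exact hh
  rng := by
    ext ⟨⟨k, m⟩, h⟩
    simp only [Set.mem_range, Prod.mk.injEq, Prod.exists, WC, Set.mem_ofPred_eq]
    constructor
    · rintro ⟨k', m', h', ⟨rfl, rfl⟩, rfl⟩
      exact Int.natCast_nonneg _
    · intro h1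
      exact ⟨k.toNat, m, h, ⟨Int.toNat_of_nonneg h1, rfl⟩, rfl⟩
  adj := by
    rintro ⟨⟨k, m⟩, h⟩ ⟨⟨k', m'⟩, h'⟩
    simp only [SimpleGraph.boxProd_adj, canopy, line, SimpleGraph.fromRel_adj, hd, par,
      Bool.exists_bool, Prod.mk.injEq, ne_eq]
    simp
    constructor
    · rintro (⟨⟨h1, h2⟩, h3⟩ | ⟨⟨h1, h2⟩, h3, h4⟩)
      · rcases h2 with ⟨h2, h4⟩ | ⟨h2, h4⟩
        · left; left; exact ⟨⟨by omega, h4.symm⟩, h3⟩
        · left; right; exact ⟨⟨by omega, h4.symm⟩, h3.symm⟩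
      · rcases h2 with h2 | h2
        · right; left; exact ⟨⟨h3, h4⟩, by omega⟩
        · right; right; exact ⟨⟨h3.symm, h4.symm⟩, by omega⟩
    · rintro ((⟨⟨h1, h2⟩, h3⟩ | ⟨⟨h1, h2⟩, h3⟩) | (⟨⟨h1, h2⟩, h3⟩ | ⟨⟨h1, h2⟩, h3⟩))
      · left; exact ⟨⟨by omega, Or.inl ⟨by omega, h2.symm⟩⟩, h3⟩
      · left; exact ⟨⟨by omega, Or.inr ⟨by omega, h2.symm⟩⟩, h3.symm⟩
      · right; exact ⟨⟨by omega, Or.inl (by omega)⟩, h1, h2⟩
      · right; exact ⟨⟨by omega, Or.inr (by omega)⟩, h1.symm, h2.symm⟩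

/-- some cluster is infinite with positive probability -/
def Perco {V : Type} (G : SimpleGraph V) (p : ℝ≥0) : Prop := 0 < perc G p {ω | ∃ x, InfCl G ω x}

theorem perco_iff {V : Type} [Countable V] (G : SimpleGraph V) (p : ℝ≥0) :
    Perco G p ↔ ∃ x, 0 < theta G x p := by
  unfold Perco
  constructor
  · intro h
    by_contra hcon
    push Not at hcon
    have h0 : ∀ x, perc G p {ω | InfCl G ω x} = 0 := fun x => nonpos_iff_eq_zero.1 (hcon x)
    have h2 : perc G p {ω | ∃ x, InfCl G ω x} = 0 := by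
      have : {ω : G.edgeSet → Bool | ∃ x, InfCl G ω x} = ⋃ x, {ω | InfCl G ω x} := by
        ext ω; simp
      rw [this, measure_iUnion_null_iff]
      exact h0
    rw [h2] at h
    exact lt_irrefl _ h
  · rintro ⟨x, hx⟩
    exact lt_of_lt_of_le hx (measure_mono fun ω hω => ⟨x, hω⟩)

theorem pos_min {b : ℕ} {p' : ℝ≥0} (hp' : p' ≤ 1) {W : Set Vx} {y : Vx}
    (h2 : 0 < (PP Ed p' hp').real {ω | (cl b ω W y).Infinite}) :
    0 < PP Ed (min p' 1) (min_le_right p' 1) {ω | (cl b ω W y).Infinite} := by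
  have h4 : PP Ed (min p' 1) (min_le_right p' 1) = PP Ed p' hp' := by
    congr 1
    exact min_eq_left hp'
  rw [h4]
  by_contra h5
  have h6 := nonpos_iff_eq_zero.1 (not_lt.1 h5)
  rw [Measure.real, h6] at h2
  simp at h2

variable {d : ℕ} (hd : 3 ≤ d) {V : Type} {C : SimpleGraph V} {l : V → ℕ} (hC : IsCanopy d C l)
include hd hC

/-- percolation on canopy × ℤ at `p ≤ 1` gives percolation on canopy × ℕ at `p` and at some `p' < p` -/
theorem down (x : V × ℤ) (y : V × ℕ) (p : ℝ≥0) (hp : p ≤ 1)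
    (h : 0 < theta (C.boxProd line) x p) :
    0 < theta (C.boxProd halfLine) y p ∧ ∃ p' < p, 0 < theta (C.boxProd halfLine) y p' := by
  have hb : 2 ≤ d - 1 := by omega
  obtain ⟨φ⟩ := caniso d hd V C l hC
  have : Countable V := φ.toEquiv.injective.countable
  have hthZ := (Pool.Agent.Helper80K9.CP.piso _ _ _ _ (boxIso φ line)).2
  have hthN := (Pool.Agent.Helper80K9.CP.piso _ _ _ _ (boxIso φ halfLine)).2
  rw [hthZ, (emb_canopyZ d).theta_eq reidx] at h
  have h1 := ENNReal.toReal_pos h.ne' (measure_ne_top _ _)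
  have hE := emb_canopy d
  have hgW : ∀ x : (ℕ × ℕ) × ℕ, ((((x.1.1 : ℤ), x.1.2), (x.2 : ℤ)) : Vx) ∈ WN :=
    fun x => hE.rng ▸ ⟨x, rfl⟩
  obtain ⟨hall0, p', hp', hlt, hall⟩ := mainZ (d - 1) hb _ _ _ h1
  constructor
  · rw [hthN, hE.theta_eq reidx]
    have h2 := hall0 _ (hgW (boxIso φ halfLine y))
    by_contra h5
    have h6 := nonpos_iff_eq_zero.1 (not_lt.1 h5)
    rw [Measure.real, h6] at h2
    simp at h2
  · refine ⟨p', lt_of_lt_of_le hlt (min_le_left _ _), ?_⟩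
    rw [hthN, hE.theta_eq reidx]
    exact pos_min hp' (hall _ (hgW (boxIso φ halfLine y)))

/-- percolation on canopy × ℕ gives percolation on canopy × ℤ -/
theorem up (y : V × ℕ) (p : ℝ≥0) (h : 0 < theta (C.boxProd halfLine) y p) :
    ∃ x, 0 < theta (C.boxProd line) x p := by
  obtain ⟨φ⟩ := caniso d hd V C l hC
  have : Countable V := φ.toEquiv.injective.countable
  have hthZ := (Pool.Agent.Helper80K9.CP.piso _ _ _ _ (boxIso φ line)).2
  have hthN := (Pool.Agent.Helper80K9.CP.piso _ _ _ _ (boxIso φ halfLine)).2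
  rw [hthN, (emb_canopy d).theta_eq reidx] at h
  refine ⟨(boxIso φ line).symm ((boxIso φ halfLine y).1, ((boxIso φ halfLine y).2 : ℤ)), ?_⟩
  rw [hthZ, (emb_canopyZ d).theta_eq reidx, RelIso.apply_symm_apply]
  refine lt_of_lt_of_le h (measure_mono fun ω hω => ?_)
  exact Set.Infinite.mono (cl_mono (fun z hz => hz.1) fun e _ h => h) hω

/-- the two products percolate at the same parameters -/
theorem perco_eq (p : ℝ≥0) (hp : p ≤ 1) :
    Perco (C.boxProd line) p ↔ Perco (C.boxProd halfLine) p := by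
  obtain ⟨φ⟩ := caniso d hd V C l hC
  have : Countable V := φ.toEquiv.injective.countable
  rw [perco_iff, perco_iff]
  constructor
  · rintro ⟨x, hx⟩
    exact ⟨(x.1, 0), (down hd hC x (x.1, 0) p hp hx).1⟩
  · rintro ⟨y, hy⟩
    exact up hd hC y p hy

/-- the parameters of percolation form an open set -/
theorem perco_down (p : ℝ≥0) (hp : p ≤ 1) (h : Perco (C.boxProd line) p) :
    ∃ p' < p, Perco (C.boxProd halfLine) p' := by
  obtain ⟨φ⟩ := caniso d hd V C l hC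
  have : Countable V := φ.toEquiv.injective.countable
  rw [perco_iff] at h
  obtain ⟨x, hx⟩ := h
  obtain ⟨_, p', hlt, hp'⟩ := down hd hC x (x.1, 0) p hp hx
  exact ⟨p', hlt, (perco_iff _ _).2 ⟨_, hp'⟩⟩

/-- percolation at `p = 1` -/
theorem perco_one : Perco (C.boxProd halfLine) 1 := by
  have hb : 2 ≤ d - 1 := by omega
  obtain ⟨φ⟩ := caniso d hd V C l hC
  have : Countable V := φ.toEquiv.injective.countable
  have hthN := (Pool.Agent.Helper80K9.CP.piso _ _ _ _ (boxIso φ halfLine)).2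
  have : Nonempty V := hC.conn.nonempty
  obtain ⟨v⟩ := this
  rw [perco_iff]
  refine ⟨(v, 0), ?_⟩
  have hE := emb_canopy d
  have hgW : ∀ x : (ℕ × ℕ) × ℕ, ((((x.1.1 : ℤ), x.1.2), (x.2 : ℤ)) : Vx) ∈ WN :=
    fun x => hE.rng ▸ ⟨x, rfl⟩
  rw [hthN, hE.theta_eq reidx]
  exact pos_min le_rfl (one_pos (d - 1) hb _ (hgW (boxIso φ halfLine (v, 0))))

end Pool.Agent.U621.CZ
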